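import Pool.Agent.H55.MU.GalStm
import Pool.Agent.W398.UH.Inert

/-!
# Stub CYC of project MU: the cyclotomic `ℤ_p`-extension of `ℚ`
-/

set_option autoImplicit false

namespace Pool.Agent.H92.MuC

open scoped Pointwise
open NumberField Pool.Agent.W569.FM Pool.Agent.Helper832_EG Pool.Agent.H55.MU Pool.Agent.W134.FM

/-! ## The cyclotomic character -/

section char

variable (n : ℕ) [NeZero n]

/-- a primitive `n`-th root of unity -/
noncomputable def ze : AlgebraicClosure ℚ :=
  (HasEnoughRootsOfUnity.exists_primitiveRoot (AlgebraicClosure ℚ) n).choose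

theorem ze_spec : IsPrimitiveRoot (ze n) n :=
  (HasEnoughRootsOfUnity.exists_primitiveRoot (AlgebraicClosure ℚ) n).choose_spec

/-- the cyclotomic character modulo `n` -/
noncomputable def chi : GF ℚ →* (ZMod n)ˣ := (ze_spec n).autToPow ℚ

theorem chi_spec (g : GF ℚ) : ze n ^ (chi n g : ZMod n).val = g (ze n) :=
  (ze_spec n).autToPow_spec ℚ g

theorem chi_surj : Function.Surjective (chi n) := by
  intro u
  have hn : 0 < n := Nat.pos_of_ne_zero (NeZero.ne n)
  have hp : IsPrimitiveRoot (ze n ^ (u : ZMod n).val) n :=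
    (ze_spec n).pow_of_coprime _ (ZMod.val_coe_unit_coprime u)
  obtain ⟨g, hg⟩ := exists_aut (minpoly_root hn hp (ze_spec n))
  refine ⟨g, ?_⟩
  have h := chi_spec n g
  rw [hg] at h
  have h2 := (ze_spec n).pow_inj (ZMod.val_lt _) (ZMod.val_lt _) h
  exact Units.ext (ZMod.val_injective n h2)

theorem mem_ker (g : GF ℚ) : g ∈ (chi n).ker ↔ ∀ z : AlgebraicClosure ℚ, z ^ n = 1 → g z = z := by
  have hn : n ≠ 0 := NeZero.ne n
  rw [MonoidHom.mem_ker]
  constructor
  · intro h z hz
    obtain ⟨k, -, rfl⟩ := (ze_spec n).eq_pow_of_pow_eq_one hz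
    have h1 := chi_spec n g
    rw [h] at h1
    have h2 : g (ze n) = ze n := by
      rw [← h1]
      rcases Nat.lt_or_ge 1 n with h3 | h3
      · have : Fact (1 < n) := ⟨h3⟩
        rw [Units.val_one, ZMod.val_one, pow_one]
      · have h4 : n = 1 := by omega
        have h5 : ze n = 1 := by
          calc ze n = ze n ^ 1 := (pow_one _).symm
            _ = ze n ^ n := congrArg (ze n ^ ·) h4.symm
            _ = 1 := (ze_spec n).pow_eq_one
        rw [h5, one_pow]
    rw [map_pow, h2]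
  · intro h
    have h1 := chi_spec n g
    rw [h _ (ze_spec n).pow_eq_one] at h1
    by_contra hne
    apply hne
    have h2 : ze n ^ (chi n g : ZMod n).val = ze n ^ ((1 : (ZMod n)ˣ) : ZMod n).val := by
      rw [h1]
      rcases Nat.lt_or_ge 1 n with h3 | h3
      · have : Fact (1 < n) := ⟨h3⟩
        rw [Units.val_one, ZMod.val_one, pow_one]
      · have h4 : n = 1 := by omega
        have h5 : ze n = 1 := by
          calc ze n = ze n ^ 1 := (pow_one _).symm
            _ = ze n ^ n := congrArg (ze n ^ ·) h4.symm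
            _ = 1 := (ze_spec n).pow_eq_one
        rw [h5, one_pow]
    have h3 := (ze_spec n).pow_inj (ZMod.val_lt _) (ZMod.val_lt _) h2
    exact Units.ext (ZMod.val_injective n h3)

theorem isOpen_ker : IsOpen ((chi n).ker : Set (GF ℚ)) := by
  refine Subgroup.isOpen_mono (H₁ := MulAction.stabilizer (GF ℚ) (ze n)) ?_ (isOpen_stab _)
  intro g hg
  rw [mem_ker]
  intro z hz
  obtain ⟨k, -, rfl⟩ := (ze_spec n).eq_pow_of_pow_eq_one hz
  have h1 : g (ze n) = ze n := hg
  rw [map_pow, h1]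

end char

/-! ## The layers -/

section layers

variable (p : ℕ) [hp : Fact p.Prime]

instance (m : ℕ) : NeZero (p ^ m) := ⟨pow_ne_zero _ hp.out.ne_zero⟩

/-- `chi ^ (p - 1)` -/
noncomputable def ps (m : ℕ) : GF ℚ →* (ZMod (p ^ (m + 1)))ˣ :=
  (powMonoidHom (p - 1)).comp (chi (p ^ (m + 1)))

/-- the group of the layer of degree `p ^ m` -/
noncomputable def AA (m : ℕ) : Subgroup (GF ℚ) := (ps p m).ker

theorem mem_AA (m : ℕ) (g : GF ℚ) : g ∈ AA p m ↔ g ^ (p - 1) ∈ (chi (p ^ (m + 1))).ker := by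
  rw [AA, MonoidHom.mem_ker, MonoidHom.mem_ker, map_pow]; rfl

theorem ker_le (m : ℕ) : (chi (p ^ (m + 1))).ker ≤ AA p m := by
  intro g hg
  rw [mem_AA]
  exact Subgroup.pow_mem _ hg _

instance (m : ℕ) : (AA p m).Normal := by rw [AA]; infer_instance

theorem AA_zero : AA p 0 = ⊤ := by
  rw [eq_top_iff]
  intro g _
  rw [mem_AA, MonoidHom.mem_ker, map_pow]
  have h := ZMod.pow_totient (chi (p ^ (0 + 1)) g)
  have h2 : Nat.totient (p ^ (0 + 1)) = p - 1 := by
    rw [zero_add, pow_one, Nat.totient_prime hp.out]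
  rwa [h2] at h

theorem AA_anti : Antitone (AA p) := by
  refine antitone_nat_of_succ_le fun m g hg => ?_
  rw [mem_AA, mem_ker] at hg ⊢
  intro z hz
  refine hg z ?_
  rw [pow_succ p (m + 1), pow_mul, hz, one_pow]

theorem AA_open (m : ℕ) : IsOpen (AA p m : Set (GF ℚ)) :=
  Subgroup.isOpen_mono (ker_le p m) (isOpen_ker _)

theorem range_ps (m : ℕ) : (ps p m).range =
    (powMonoidHom (p - 1) : (ZMod (p ^ (m + 1)))ˣ →* (ZMod (p ^ (m + 1)))ˣ).range := by
  ext u
  constructor
  · rintro ⟨g, rfl⟩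
    exact ⟨chi _ g, rfl⟩
  · rintro ⟨v, rfl⟩
    obtain ⟨g, rfl⟩ := chi_surj _ v
    exact ⟨g, rfl⟩

theorem card_range (hp2 : p ≠ 2) (m : ℕ) : Nat.card (ps p m).range = p ^ m := by
  have := ZMod.isCyclic_units_of_prime_pow p hp.out hp2 (m + 1)
  rw [range_ps, IsCyclic.card_powMonoidHom_range, Nat.card_eq_fintype_card,
    ZMod.card_units_eq_totient, Nat.totient_prime_pow hp.out (Nat.succ_pos m),
    Nat.gcd_eq_right (dvd_mul_left (p - 1) _), Nat.succ_sub_one]
  exact Nat.mul_div_cancel _ (by have := hp.out.two_le; omega)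

theorem index_AA (hp2 : p ≠ 2) (m : ℕ) : (AA p m).index = p ^ m := by
  rw [AA, Subgroup.index_ker, card_range p hp2]

theorem comm_AA (m : ℕ) (a b : GF ℚ) : a * b * a⁻¹ * b⁻¹ ∈ (chi (p ^ (m + 1))).ker := by
  rw [MonoidHom.mem_ker, map_mul, map_mul, map_mul, map_inv, map_inv]
  rw [mul_comm (chi (p ^ (m + 1)) a), mul_inv_cancel_right, mul_inv_cancel]

/-- a group of `p`-power order: cyclic, and an element which is not a `p`-th power generates it -/
theorem gen_of_not_pow {R : Type} [CommGroup R] [IsCyclic R] [Finite R] {m : ℕ}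
    (hR : Nat.card R = p ^ m) (y : R) (hy : ∀ x : R, x ^ p ≠ y) (x : R) : ∃ k : ℕ, y ^ k = x := by
  obtain ⟨c, hc⟩ := IsCyclic.exists_generator (α := R)
  obtain ⟨a, ha⟩ := mem_powers_iff_mem_zpowers.2 (hc y)
  have hnd : ¬ p ∣ a := by
    rintro ⟨b, rfl⟩
    apply hy (c ^ b)
    rw [← pow_mul, mul_comm]; exact ha
  have hord : orderOf c = p ^ m := by rw [← hR]; exact orderOf_eq_card_of_forall_mem_zpowers hc
  have hy2 : orderOf y = Nat.card R := by
    rw [← ha, hR]
    change orderOf (c ^ a) = _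
    rw [Nat.Coprime.orderOf_pow, hord]
    rw [hord]
    exact Nat.Coprime.pow_left _ ((Nat.Prime.coprime_iff_not_dvd hp.out).2 hnd)
  have htop : Subgroup.zpowers y = ⊤ := by
    rw [← Subgroup.card_eq_iff_eq_top, Nat.card_zpowers, hy2]
  have hx : x ∈ Subgroup.zpowers y := by rw [htop]; trivial
  exact mem_powers_iff_mem_zpowers.2 hx

theorem gen_AA (hp2 : p ≠ 2) (g : GF ℚ) (hg : g ∉ AA p 1) (m : ℕ) (x : GF ℚ) :
    ∃ k : ℕ, g ^ k * x ∈ AA p m := by
  rcases Nat.eq_zero_or_pos m with rfl | hm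
  · exact ⟨0, by rw [AA_zero]; trivial⟩
  have := ZMod.isCyclic_units_of_prime_pow p hp.out hp2 (m + 1)
  have hpow : ∀ (z : (ps p m).range), z ^ p ≠ ⟨ps p m g, g, rfl⟩ := by
    rintro ⟨_, z, rfl⟩ h
    apply hg
    have h1 : ps p m (z ^ p) = ps p m g := by
      rw [map_pow]; exact congrArg Subtype.val h
    have h2 : (z ^ p)⁻¹ * g ∈ AA p m := by
      rw [AA, MonoidHom.mem_ker, map_mul, map_inv, h1, inv_mul_cancel]
    have h3 : (z ^ p)⁻¹ * g ∈ AA p 1 := AA_anti p hm h2
    have h4 : z ^ p ∈ AA p 1 := by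
      have := Subgroup.pow_index_mem (AA p 1) z
      rwa [index_AA p hp2, pow_one] at this
    have := (AA p 1).mul_mem h4 h3
    rwa [mul_inv_cancel_left] at this
  obtain ⟨k, hk⟩ := gen_of_not_pow p (card_range p hp2 m) (⟨ps p m g, g, rfl⟩ : (ps p m).range) hpow
    ⟨ps p m x⁻¹, x⁻¹, rfl⟩
  refine ⟨k, ?_⟩
  have h1 : ps p m g ^ k = ps p m x⁻¹ := congrArg Subtype.val hk
  rw [AA, MonoidHom.mem_ker, map_mul, map_pow, h1, map_inv, inv_mul_cancel]

/-! ## Inertia -/

theorem tame_AA (m : ℕ) {P : Ideal (OO ℚ)} (hP : P.IsMaximal) (hpP : (p : OO ℚ) ∉ P) :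
    inertia P ≤ AA p m := by
  intro τ hτ
  refine ker_le p m ((mem_ker _ _).2 fun z hz => ?_)
  have hpos : 0 < p ^ (m + 1) := pow_pos hp.out.pos _
  have hzi : IsIntegral ℤ z := IsIntegral.of_pow hpos (by rw [hz]; exact isIntegral_one)
  let w : OO ℚ := ⟨z, hzi⟩
  have hwl : w ^ (p ^ (m + 1)) = 1 := by
    apply RingOfIntegers.ext
    exact ((map_pow (algebraMap (OO ℚ) (AlgebraicClosure ℚ)) w _).trans hz).trans
      (map_one (algebraMap (OO ℚ) (AlgebraicClosure ℚ))).symm
  have h2 : τ • w = w := by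
    refine root_eq (l := p ^ (m + 1)) hP.ne_top ?_ ?_ hwl (hτ w) hpos.ne'
    · rw [Nat.cast_pow]
      exact fun h => hpP (hP.isPrime.mem_of_pow_mem _ h)
    · rw [← smul_pow', hwl, smul_one]
  exact congrArg (fun y : OO ℚ => (y : AlgebraicClosure ℚ)) h2

theorem wild_AA (m : ℕ) {P : Ideal (OO ℚ)} (hP : P.IsMaximal) (hpP : (p : OO ℚ) ∈ P) (x : GF ℚ) :
    ∃ s ∈ inertia P, s * x⁻¹ ∈ AA p m := by
  set J : Subgroup (GF ℚ) := inertia P ⊔ AA p m with hJ
  have hle : AA p m ≤ J := le_sup_right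
  have hIle : inertia P ≤ J := le_sup_left
  have hnorm : J.Normal := by
    refine ⟨fun j hj g => ?_⟩
    have h1 : g * j * g⁻¹ = (g * j * g⁻¹ * j⁻¹) * j := by group
    rw [h1]
    exact J.mul_mem (hle (ker_le p m (comm_AA p m g j))) hj
  have key : ∀ g : GF ℚ, QuotientGroup.mk' J g = 1 := by
    refine Pool.Agent.W215.FM.main (GF ℚ ⧸ J) (QuotientGroup.mk' J) ?_ ?_
    · rw [QuotientGroup.ker_mk']
      exact Subgroup.isOpen_mono hle (AA_open p m)
    · intro P' hP' τ hτ
      rw [← MonoidHom.mem_ker, QuotientGroup.ker_mk']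
      by_cases h : (p : OO ℚ) ∈ P'
      · obtain ⟨c, hc⟩ := (Pool.Agent.W571.FM.main p hp.out).2 P P' hP hP' hpP h
        have h1 : c⁻¹ * τ * c ∈ J := hIle (hc τ hτ)
        have h2 := hnorm.conj_mem _ h1 c
        have h3 : c * (c⁻¹ * τ * c) * c⁻¹ = τ := by group
        rwa [h3] at h2
      · exact hle (tame_AA p m hP' h hτ)
  have hg : x ∈ J := by
    have := key x
    rwa [← MonoidHom.mem_ker, QuotientGroup.ker_mk'] at this
  have hg' : x ∈ ((inertia P : Set (GF ℚ)) * (AA p m : Set (GF ℚ))) := by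
    rw [← Subgroup.mul_normal]
    exact hg
  obtain ⟨τ, hτ, n, hn, rfl⟩ := Set.mem_mul.1 hg'
  refine ⟨τ, hτ, ?_⟩
  have h1 : τ * (τ * n)⁻¹ = τ * n⁻¹ * τ⁻¹ := by group
  rw [h1]
  have hnn : (AA p m).Normal := inferInstance
  exact hnn.conj_mem _ ((AA p m).inv_mem hn) τ

end layers

/-! ## The fields -/

section fields

variable {E : Type} [Field E] [CharZero E]

theorem fixed_le (A : Subgroup (GF E)) (S : Set (AlgebraicClosure E))
    (h : ∀ g : GF E, (∀ z ∈ S, g z = z) → g ∈ A) :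
    IntermediateField.fixedField A ≤ IntermediateField.adjoin E S := by
  have h1 : (IntermediateField.adjoin E S).fixingSubgroup ≤ A := by
    intro g hg
    refine h g fun z hz => ?_
    exact (IntermediateField.mem_fixingSubgroup_iff _ g).1 hg z (IntermediateField.subset_adjoin _ _ hz)
  have h2 := IntermediateField.fixedField_antitone h1
  rwa [InfiniteGalois.fixedField_fixingSubgroup] at h2

theorem index_fixing (B : IntermediateField E (AlgebraicClosure E)) :
    B.fixingSubgroup.index = Module.finrank E B := by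
  rw [IntermediateField.finrank_eq_fixingSubgroup_index]

theorem finrank_fixed (A : Subgroup (GF E)) (hA : IsOpen (A : Set (GF E))) :
    Module.finrank E (IntermediateField.fixedField A) = A.index := by
  rw [IntermediateField.finrank_eq_fixingSubgroup_index]
  exact congrArg _ (InfiniteGalois.fixingSubgroup_fixedField ⟨A, Subgroup.isClosed_of_isOpen _ hA⟩)

theorem mem_fixing (B : IntermediateField E (AlgebraicClosure E)) (S : Set (AlgebraicClosure E))
    (hB : B ≤ IntermediateField.adjoin E S) (g : GF E) (h : ∀ z ∈ S, g z = z) :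
    g ∈ B.fixingSubgroup := by
  refine IntermediateField.fixingSubgroup_antitone hB ?_
  rw [IntermediateField.mem_fixingSubgroup_iff]
  intro z hz
  induction hz using IntermediateField.adjoin_induction with
  | mem x hx => exact h x hx
  | algebraMap x => exact g.commutes x
  | add x y _ _ hx hy => rw [map_add, hx, hy]
  | inv x _ hx => rw [map_inv₀, hx]
  | mul x y _ _ hx hy => rw [map_mul, hx, hy]

end fields

section last

variable (p : ℕ) [hp : Fact p.Prime]

theorem eq_AA (hp2 : p ≠ 2) (m : ℕ) (F : Subgroup (GF ℚ)) (h1 : (chi (p ^ (m + 1))).ker ≤ F)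
    (hd : F.index = p ^ m) : F = AA p m := by
  have hn : F.Normal := by
    refine ⟨fun j hj g => ?_⟩
    have h2 : g * j * g⁻¹ = (g * j * g⁻¹ * j⁻¹) * j := by group
    rw [h2]
    exact Subgroup.mul_mem _ (h1 (comm_AA p m g j)) hj
  have hle : AA p m ≤ F := by
    intro g hg
    have h2 : g ^ (p - 1) ∈ F := h1 ((mem_AA p m g).1 hg)
    have h3 : g ^ (p ^ m) ∈ F := by
      rw [← hd]; exact Subgroup.pow_index_mem _ g
    have hco : Nat.Coprime (p - 1) (p ^ m) := by
      refine Nat.Coprime.pow_right _ ?_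
      rw [Nat.coprime_comm, Nat.Prime.coprime_iff_not_dvd hp.out]
      intro hdvd
      have := Nat.le_of_dvd (by have := hp.out.two_le; omega) hdvd
      have := hp.out.two_le
      omega
    have h4 : (g : GF ℚ) ^ ((p - 1).gcd (p ^ m) : ℤ) ∈ F := by
      rw [Nat.gcd_eq_gcd_ab, zpow_add, zpow_mul, zpow_mul]
      refine Subgroup.mul_mem _ (Subgroup.zpow_mem _ ?_ _) (Subgroup.zpow_mem _ ?_ _)
      · rw [zpow_natCast]; exact h2
      · rw [zpow_natCast]; exact h3
    rw [hco] at h4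
    simpa using h4
  have h5 := Subgroup.relIndex_mul_index hle
  rw [index_AA p hp2, hd] at h5
  have hpos : 0 < p ^ m := pow_pos hp.out.pos _
  have h6 : (AA p m).relIndex F = 1 := by
    have : (AA p m).relIndex F * p ^ m = 1 * p ^ m := by rw [h5, one_mul]
    exact Nat.eq_of_mul_eq_mul_right hpos this
  exact le_antisymm (Subgroup.relIndex_eq_one.1 h6) hle

end last

theorem main : S_CYC := by
  intro p hp hp2
  refine ⟨AA p, AA_zero p, AA_anti p, AA_open p, fun m => inferInstance, index_AA p hp2,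
    gen_AA p hp2, ?_, ?_, fun m => ⟨?_, ?_⟩, ?_⟩
  · rintro I ⟨P, hP, hpP, rfl⟩ m
    exact tame_AA p m hP hpP
  · rintro I ⟨P, hP, hpP, rfl⟩ m x
    exact wild_AA p m hP hpP x
  · exact fixed_le (AA p m) _ fun g hg => ker_le p m ((mem_ker _ _).2 hg)
  · rw [finrank_fixed (AA p m) (AA_open p m), index_AA p hp2]
  · intro m B hB hd
    refine eq_AA p hp2 m B.fixingSubgroup (fun g hg => ?_) ?_
    · exact mem_fixing (E := ℚ) B _ hB g ((mem_ker _ _).1 hg)
    · exact (index_fixing (E := ℚ) B).trans hd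

end Pool.Agent.H92.MuC
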